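import Pool.Agent.V11249.NP.Law
import Pool.Agent.V11249.NP.Fam

/-!
# Primes `q` with `2 q - 1` almost prime: the Poisson law after them

Call `m` good if neither `m` nor `2 m - 1` has a prime factor up to `N ^ (1 / r)` (for `m ≤ N` the second number then
has at most `2 r` prime factors). Let `P` be the set of the good primes `q` in a window `(u, u + Y] ⊆ (0, N]` with
`Y ≥ δ N`.

(1) `|P| log N` is `Y S` up to the factor `1 + O (ε)`, `S` the product of `(1 - ν(p) / p) / (1 - 1 / p)` over the primes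
`p ≤ N ^ (1 / r)`, `ν(p)` the number of the `m` modulo `p` with `p ∣ m (2 m - 1)`.

(2) For the elements `q` of `P` the number of the good `m` in the window `(q, q + T]` has the Poisson distribution with
the mean value `T V`, up to an error `ε`; `V` is the product of `1 - ν(p) / p`.
-/

set_option autoImplicit false

namespace Pool.Agent.Results.MP_39a890_nt.LawAfterPrimes

open Finset Filter

/-- the second number -/
def g (m : ℕ) : ℤ := 2 * (m : ℤ) - 1

/-- No prime up to `N ^ (1 / r)` divides `m` or `g m`. -/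
def Good (r N m : ℕ) : Prop :=
  ∀ p : ℕ, p.Prime → (p : ℝ) ≤ (N : ℝ) ^ (1 / (r : ℝ)) → ¬ p ∣ m ∧ ¬ (p : ℤ) ∣ g m

open Classical in
/-- The good primes `q` in `(u, u + Y]`. -/
noncomputable def P (r N u Y : ℕ) : Finset ℕ := (Ioc u (u + Y)).filter (fun q => q.Prime ∧ Good r N q)

open Classical in
/-- The number of the good `m` in the window `(n, n + T]`. -/
noncomputable def W (r N T n : ℕ) : ℕ := ((Ioc n (n + T)).filter (fun m => Good r N m)).card

/-- The number of the residues `m` modulo `p` with `p ∣ m g(m)`. -/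
def nu (p : ℕ) : ℕ := ((range p).filter (fun m : ℕ => p ∣ m ∨ (p : ℤ) ∣ g m)).card

/-- The density of the good integers. -/
noncomputable def V (r N : ℕ) : ℝ :=
  ∏ p ∈ (Icc 1 ⌊(N : ℝ) ^ (1 / (r : ℝ))⌋₊).filter Nat.Prime, (1 - (nu p : ℝ) / p)

/-- The density of the good primes among the primes. -/
noncomputable def S (r N : ℕ) : ℝ :=
  V r N / ∏ p ∈ (Icc 1 ⌊(N : ℝ) ^ (1 / (r : ℝ))⌋₊).filter Nat.Prime, (1 - 1 / (p : ℝ))

open Pool.Agent.TH464.PO Pool.Agent.TH464.PW Pool.Agent.W123.RU.Poly Pool.Agent.W123.RP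
open Pool.Agent.H373R2.T7 Pool.Agent.Y879.GL Pool.Agent.Y879.PR

/-- the system `x`, `g` -/
noncomputable def F : Fin 2 → Polynomial ℤ := fun i => quad (![0, 0] i) (![1, 2] i) (![0, -1] i)

lemma F0 : F 0 = Polynomial.X := by
  show quad 0 1 0 = Polynomial.X
  simp [quad]

lemma ev0 (m : ℕ) : (F 0).eval (m : ℤ) = ((m : ℕ) : ℤ) := by rw [F0]; simp

lemma ev1 (m : ℕ) : (F 1).eval (m : ℤ) = g m := by
  refine (quad_eval (0) (2) (-1) (m : ℤ)).trans ?_
  unfold g
  ring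

lemma Q_iff (p m : ℕ) : Q F p m ↔ (p ∣ m ∨ (p : ℤ) ∣ g m) := by
  unfold Q
  rw [Fin.exists_fin_two, ev0, ev1, Int.natCast_dvd_natCast]

lemma sys : Sys F := by
  refine Pool.Agent.V11249.NP.sys_of ![0, 0] ![1, 2] ![0, -1] ?_ ?_ ?_ 1 2 ?_
  · intro i
    fin_cases i
    · right
      exact ⟨rfl, one_pos⟩
    · right
      exact ⟨rfl, by norm_num⟩
  · intro i
    fin_cases i <;> rfl
  · intro i j _ h1 _
    fin_cases i <;> fin_cases j <;> simp_all
  · decide

lemma notr : NoTr F := by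
  refine Pool.Agent.V11249.NP.noTr_quad ![0, 0] ![1, 2] ![0, -1] ?_
  intro i j t ht
  fin_cases i <;> fin_cases j <;> simp <;> intros <;> omega

lemma good_iff (r N m : ℕ) : Sf (Q F) ⌊(N : ℝ) ^ (1 / (r : ℝ))⌋₊ m ↔ Good r N m := by
  have h0 : (0 : ℝ) ≤ (N : ℝ) ^ (1 / (r : ℝ)) := by positivity
  constructor
  · intro h p hp hpX
    have h1 := h p (mem_pz.2 ⟨Nat.le_floor hpX, hp⟩)
    rwa [Q_iff, not_or] at h1
  · intro h p hp
    obtain ⟨h1, h2⟩ := mem_pz.1 hp
    rw [Q_iff, not_or]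
    exact h p h2 ((Nat.le_floor_iff h0).1 h1)

lemma pz_eq (y : ℕ) : pz y = (Icc 1 y).filter Nat.Prime := by
  ext p
  rw [mem_pz, mem_filter, mem_Icc]
  constructor
  · rintro ⟨h1, h2⟩
    exact ⟨⟨h2.pos, h1⟩, h2⟩
  · rintro ⟨⟨_, h1⟩, h2⟩
    exact ⟨h1, h2⟩

lemma V_eq (r N : ℕ) : Vq (Q F) ⌊(N : ℝ) ^ (1 / (r : ℝ))⌋₊ = V r N := by
  classical
  unfold Vq V
  rw [pz_eq]
  apply Finset.prod_congr rfl
  intro p _
  have : nuB (Q F) p = nu p := by
    unfold nuB nu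
    congr 1
    apply Finset.filter_congr
    intro m _
    exact Q_iff p m
  rw [this]

lemma S_eq (r N : ℕ) : Vq (Q F) ⌊(N : ℝ) ^ (1 / (r : ℝ))⌋₊ / Vz ⌊(N : ℝ) ^ (1 / (r : ℝ))⌋₊ = S r N := by
  rw [V_eq]
  unfold S Vz
  rw [pz_eq]

lemma few (r : ℕ) (hr : 1 ≤ r) : ∀ᶠ N : ℕ in atTop, ∀ m : ℕ, m ≤ N → Good r N m →
    (g m).natAbs.primeFactorsList.length ≤ 2 * r := by
  filter_upwards [sf_APq (0) (2) (-1) r hr] with N hN m hm hg
  have h1 : Sf (Q (qs (0) (2) (-1))) ⌊(N : ℝ) ^ (1 / (r : ℝ))⌋₊ m := by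
    intro p hp hd
    rw [qs_Q] at hd
    obtain ⟨h1, h2⟩ := mem_pz.1 hp
    refine (hg p h2 ((Nat.le_floor_iff (by positivity)).1 h1)).2 ?_
    rw [← ev1]
    refine hd.trans (dvd_of_eq ?_)
    exact (quad_eval (0) (2) (-1) (m : ℤ)).symm
  have h2 := ((hN m (by omega)).1 h1).1
  have e : g m = (0) * (m : ℤ) ^ 2 + (2) * m + (-1) := by
    unfold g
    ring
  rw [e]
  exact h2

open Classical in
/-- For `0 < δ ≤ 1`, `x0`, `0 < ε ≤ 1` there is `r0` such that for all `r ≥ r0` and all large `N`: (0) `g m` has at most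
`2 r` prime factors for the good `m ≤ N`; for all `u`, `Y` with `Y ≥ δ N`, `u + Y ≤ N`: (1) the number of the good
primes in `(u, u + Y]` is `Y S / log N` up to at most `ε Y S / log N`; (2) for all `T` with `T V ≤ x0` and all finite sets
`B` the number of the good primes `q` in `(u, u + Y]` for which the number of the good `m` in `(q, q + T]` lies in `B`
is `∑_{j ∈ B} e ^ (-T V) (T V) ^ j / j!` times the number of all these good primes, up to at most `ε` times it. -/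
theorem result (δ : ℝ) (hδ : 0 < δ) (hδ1 : δ ≤ 1) (x0 ε : ℝ) (hε : 0 < ε) (hε1 : ε ≤ 1) :
    ∃ r0 : ℕ, ∀ r : ℕ, r0 ≤ r → ∀ᶠ N : ℕ in atTop,
      (∀ m : ℕ, m ≤ N → Good r N m → (g m).natAbs.primeFactorsList.length ≤ 2 * r) ∧
      ∀ u Y : ℕ, δ * N ≤ Y → u + Y ≤ N →
      |((P r N u Y).card : ℝ) * Real.log N - Y * S r N| ≤ ε * (Y * S r N) ∧
      ∀ T : ℕ, T * V r N ≤ x0 → ∀ B : Finset ℕ,
        |(((P r N u Y).filter (fun q => W r N T q ∈ B)).card : ℝ) -
          (P r N u Y).card * ∑ j ∈ B, Real.exp (-(T * V r N)) * (T * V r N) ^ j / j.factorial| ≤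
        ε * (P r N u Y).card := by
  obtain ⟨r0, hr0, h⟩ := Pool.Agent.V11249.NP.law F sys notr 0 F0 δ hδ hδ1 x0 ε hε hε1
  refine ⟨r0, fun r hr => ?_⟩
  filter_upwards [h r hr, few r (by omega)] with N hN hfew
  refine ⟨hfew, fun u Y hY huY => ?_⟩
  have hP : Om 1 0 (Q F) ⌊(N : ℝ) ^ (1 / (r : ℝ))⌋₊ u Y = P r N u Y := by
    unfold Om P
    apply Finset.filter_congr
    intro n _
    rw [one_mul, add_zero, good_iff]
  have hW : ∀ n T, Wc (Sf (Q F) ⌊(N : ℝ) ^ (1 / (r : ℝ))⌋₊) n T = W r N T n := by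
    intro n T
    unfold Wc W
    congr 1
    apply Finset.filter_congr
    intro m _
    exact good_iff r N m
  obtain ⟨h1, h2⟩ := hN u Y hY huY
  rw [hP, S_eq] at h1
  refine ⟨h1, fun T hT B => ?_⟩
  have h3 := h2 T (by rw [V_eq]; exact hT) B
  rw [hP, V_eq] at h3
  simp only [hW] at h3
  exact h3

end Pool.Agent.Results.MP_39a890_nt.LawAfterPrimes
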